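import Pool.Agent.H272R3.DP.T

set_option autoImplicit false

open Cardinal

namespace Pool.Agent.H272R3.DP

theorem box : TaskBox := by
  classical
  intro X κ hX hκ hlim m
  induction m with
  | zero =>
    intro C _ col
    exact ⟨Fin.elim0, Fin.elim0, fun l => l.elim0, fun s => by congr 1; funext l; exact l.elim0⟩
  | succ m ih =>
    intro C hC col
    let lam : Cardinal.{0} := max #C 1
    have hlam : lam < κ := max_lt hC (one_lt_aleph0.trans_le hκ)
    have hs : Order.succ lam ≤ #X := hX ▸ (hlim lam hlam).le
    obtain ⟨X0, hX0⟩ := le_mk_iff_exists_set.1 hs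
    have hni : ∀ z : Fin m → X, ∃ q : X0 × X0, q.1 ≠ q.2 ∧
        col (Fin.cons (q.1 : X) z) = col (Fin.cons (q.2 : X) z) := by
      intro z
      by_contra hno
      push Not at hno
      have hinj : Function.Injective (fun w : X0 => col (Fin.cons (w : X) z)) := by
        intro a b hab
        by_contra hne
        exact hno (a, b) hne hab
      have h1 := mk_le_of_injective hinj
      rw [hX0] at h1
      exact absurd (h1.trans (le_max_left _ _)) (not_le.2 (Order.lt_succ lam))
    choose q hq1 hq2 using hni
    have hC' : #((X0 × X0) × C) < κ := by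
      have h0 : #X0 < κ := hX0 ▸ hlim lam hlam
      rw [mk_prod]
      simp only [lift_id]
      refine mul_lt_of_lt hκ ?_ hC
      simp only [mk_prod, lift_id]
      exact mul_lt_of_lt hκ h0 h0
    obtain ⟨x, y, hxy, hmono⟩ := ih ((X0 × X0) × C) hC'
      (fun z => (q z, col (Fin.cons ((q z).1 : X) z)))
    refine ⟨Fin.cons ((q x).1 : X) x, Fin.cons ((q x).2 : X) y, ?_, ?_⟩
    · intro l
      refine Fin.cases ?_ (fun i => ?_) l
      · simp only [Fin.cons_zero]
        exact fun h => hq1 x (Subtype.ext h)
      · simp only [Fin.cons_succ]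
        exact hxy i
    · intro s
      let s' : Finset (Fin m) := Finset.univ.filter (fun i => Fin.succ i ∈ s)
      have h1 := hmono s'
      set z : Fin m → X := fun l => if l ∈ s' then y l else x l with hz
      have e1 : q z = q x := congrArg Prod.fst h1
      have e2 : col (Fin.cons ((q z).1 : X) z) = col (Fin.cons ((q x).1 : X) x) := congrArg Prod.snd h1
      have e3 : (fun l => if l ∈ s then (Fin.cons ((q x).2 : X) y : Fin (m + 1) → X) l
          else (Fin.cons ((q x).1 : X) x : Fin (m + 1) → X) l) =
          Fin.cons (if (0 : Fin (m + 1)) ∈ s then ((q x).2 : X) else ((q x).1 : X)) z := by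
        funext l
        refine Fin.cases ?_ (fun i => ?_) l
        · simp
        · simp [hz, s']
      rw [e3]
      split_ifs
      · rw [← e2, hq2 z, e1]
      · rw [← e2, e1]

end Pool.Agent.H272R3.DP
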