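import Pool.Agent.H272R3.DP.T

set_option autoImplicit false

open Cardinal

namespace Pool.Agent.H272R3.DP

theorem core (hBox : TaskBox) (hCube : TaskCube) (hDiff : TaskDiff) {G A : Type} [Group G]
    [AddCommGroup A] (κ : Cardinal.{0}) (hκ : ℵ₀ < κ) (hlim : ∀ c < κ, Order.succ c < κ)
    (N : Subgroup G) (j : A → G) (hj : Function.Injective j)
    (hjs : ∀ a b, j (a - b) = j a * (j b)⁻¹) (hjN : ∀ g, g ∈ N ↔ ∃ a, j a = g)
    (hNn : N.Normal) (hG : #G = κ) (hq : #(G ⧸ N) < κ) (hP : Pack A κ) : Good G := by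
  classical
  obtain ⟨p, I, _, S, J, e, hJ, hS, hpe, hind, hcount⟩ := hP
  have hj0 : j 0 = 1 := by simpa using hjs 0 0
  have hjneg : ∀ b, j (-b) = (j b)⁻¹ := fun b => by simpa [hj0] using hjs 0 b
  have hjadd : ∀ a b, j (a + b) = j a * j b := fun a b => by
    have := hjs a (-b); rw [sub_neg_eq_add, hjneg, inv_inv] at this; exact this
  have hjcomm : ∀ a b, j a * j b = j b * j a := fun a b => by
    rw [← hjadd, ← hjadd, add_comm]
  let t : G ⧸ N → G := Quotient.out
  have ht : ∀ g : G, (t (g : G ⧸ N))⁻¹ * g ∈ N := fun g => by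
    rw [← QuotientGroup.eq]
    exact QuotientGroup.out_eq' _
  have hex : ∀ g : G, ∃ a : A, j a = (t (g : G ⧸ N))⁻¹ * g := fun g => (hjN _).1 (ht g)
  choose a ha using hex
  refine ⟨fun n => {g | (S (a g)).card = n}, ?_, ?_, ?_⟩
  · ext g; simp
  · intro i k hik
    show Disjoint _ _
    rw [Set.disjoint_left]
    intro g h1 h2
    exact hik (h1.symm.trans h2)
  · rintro n ⟨F, hF, hcov⟩
    have hcov' : ∀ v : A, ∃ f ∈ F, ∃ g ∈ {g : G | (S (a g)).card = n},
        ∃ h ∈ {g : G | (S (a g)).card = n}, f * (g * h⁻¹) = j v := fun v => hcov (j v)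
    choose f hf g hg h hh heq using hcov'
    let C : Type := F × (G ⧸ N) × (G ⧸ N)
    have hC : #C < κ := by
      have h1 : #((G ⧸ N) × (G ⧸ N)) < κ := by
        simp only [mk_prod, lift_id]; exact mul_lt_of_lt hκ.le hq hq
      show #(F × (G ⧸ N) × (G ⧸ N)) < κ
      rw [mk_prod]
      simp only [lift_id]
      exact mul_lt_of_lt hκ.le (hG ▸ hF) h1
    let color : A → C := fun v => (⟨f v, hf v⟩, (g v : G ⧸ N), (h v : G ⧸ N))
    let m := 8 * n + 1
    have hcard : #(Fin m × J) = #J := by
      simp only [mk_prod, lift_id, hJ, mk_fin]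
      exact mul_eq_right hκ.le ((natCast_lt_aleph0).le.trans hκ.le) (by simp [m])
    obtain ⟨φ⟩ := Cardinal.eq.1 hcard
    let e' : Fin m × J → A := fun z => e (φ z)
    have hind' : ∀ f : (Fin m × J) →₀ ℤ, (f.sum fun j c => c • e' j) = 0 → ∀ j, (p : ℤ) ∣ f j := by
      intro f0 hf0 z
      have h1 := hind (f0.equivMapDomain φ) (by
        rw [Finsupp.equivMapDomain_eq_mapDomain, Finsupp.sum_mapDomain_index]
        · exact hf0
        · intro b; simp
        · intro b m1 m2; rw [add_smul]) (φ z)
      simpa [Finsupp.equivMapDomain_apply] using h1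
    obtain ⟨x, y, hxy, hmono⟩ := hBox J κ hJ hκ.le hlim m C hC
      (fun x => color (∑ l, e' (l, x l)))
    let u : Fin m → A := fun l => e' (l, y l) - e' (l, x l)
    let v : Finset (Fin m) → A := fun s => ∑ l, e' (l, if l ∈ s then y l else x l)
    let v0 : A := ∑ l, e' (l, x l)
    have hcol : ∀ s, color (v s) = color v0 := fun s => hmono s
    have hv : ∀ s, v s - v0 = ∑ l ∈ s, u l := by
      intro s
      show (∑ l, e' (l, if l ∈ s then y l else x l)) - (∑ l, e' (l, x l)) = ∑ l ∈ s, u l
      rw [← Finset.sum_sub_distrib, ← Finset.sum_filter_add_sum_filter_not Finset.univ (fun l => l ∈ s)]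
      have h1 : ∑ l ∈ Finset.univ.filter (fun l => l ∈ s),
          (e' (l, if l ∈ s then y l else x l) - e' (l, x l)) = ∑ l ∈ s, u l := by
        rw [Finset.filter_univ_mem]
        apply Finset.sum_congr rfl
        intro l hl
        simp only [hl, if_true, u]
      have h2 : ∑ l ∈ Finset.univ.filter (fun l => ¬ l ∈ s),
          (e' (l, if l ∈ s then y l else x l) - e' (l, x l)) = 0 := by
        apply Finset.sum_eq_zero
        intro l hl
        rw [Finset.mem_filter] at hl
        simp only [hl.2, if_false, sub_self]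
      rw [h1, h2, add_zero]
    let r : G := t (h v0 : G ⧸ N)
    have hσex : ∀ w : A, ∃ w' : A, j w' = r⁻¹ * j w * r := fun w => by
      have h1 : j w ∈ N := (hjN _).2 ⟨w, rfl⟩
      have h2 := hNn.conj_mem _ h1 r⁻¹
      rw [inv_inv] at h2
      exact (hjN _).1 h2
    choose σ0 hσ0 using hσex
    let σ : A →+ A := AddMonoidHom.ofMapSub σ0 (fun a b => hj (by
      rw [hσ0, hjs, hjs, hσ0, hσ0]; group))
    have hσ : ∀ w, j (σ w) = r⁻¹ * j w * r := hσ0
    have hσinj : ∀ w, σ w = 0 → w = 0 := by
      intro w hw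
      have h1 := hσ w
      rw [hw, hj0] at h1
      apply hj
      rw [hj0]
      have : j w = r * (r⁻¹ * j w * r) * r⁻¹ := by group
      rw [this, ← h1]; group
    have key : ∀ s, σ (v s - v0) = (a (h v0) - a (g v0)) - (a (h (v s)) - a (g (v s))) := by
      intro s
      have hc := hcol s
      have hc1 : f (v s) = f v0 := congrArg (fun z : C => (z.1 : G)) hc
      have hc2 : (g (v s) : G ⧸ N) = (g v0 : G ⧸ N) := congrArg (fun z : C => z.2.1) hc
      have hc3 : (h (v s) : G ⧸ N) = (h v0 : G ⧸ N) := congrArg (fun z : C => z.2.2) hc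
      apply hj
      rw [hσ]
      have e1 : j (v s - v0) = (j v0)⁻¹ * j (v s) := by
        rw [hjs, ← hjneg, hjcomm]
      have g1 : g (v s) = t (g v0 : G ⧸ N) * j (a (g (v s))) := by
        rw [ha, hc2]; group
      have g0 : g v0 = t (g v0 : G ⧸ N) * j (a (g v0)) := by
        rw [ha]; group
      have h1 : h (v s) = r * j (a (h (v s))) := by
        rw [ha, hc3]; show _ = r * (r⁻¹ * _); group
      have h0 : h v0 = r * j (a (h v0)) := by
        rw [ha]; show _ = r * (r⁻¹ * _); group
      have e2 : (j v0)⁻¹ * j (v s) = h v0 * (g v0)⁻¹ * (g (v s) * (h (v s))⁻¹) := by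
        rw [← heq (v s), ← heq v0, hc1]; group
      have e3 : h v0 * (g v0)⁻¹ * (g (v s) * (h (v s))⁻¹) =
          r * (j (a (h v0)) * (j (a (g v0)))⁻¹ * (j (a (g (v s))) * (j (a (h (v s))))⁻¹)) * r⁻¹ := by
        calc h v0 * (g v0)⁻¹ * (g (v s) * (h (v s))⁻¹)
            = (r * j (a (h v0))) * (t (g v0 : G ⧸ N) * j (a (g v0)))⁻¹ *
              ((t (g v0 : G ⧸ N) * j (a (g (v s)))) * (r * j (a (h (v s))))⁻¹) := by
                rw [← g1, ← g0, ← h1, ← h0]
          _ = _ := by group
      rw [e1, e2, e3]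
      have e4 : (a (h v0) - a (g v0)) - (a (h (v s)) - a (g (v s))) =
          (a (h v0) - a (g v0)) + (a (g (v s)) - a (h (v s))) := by abel
      rw [e4, hjadd, hjs, hjs]
      group
    have hN4 : ∀ s : Finset (Fin m), (S (∑ l ∈ s, σ (u l))).card ≤ 4 * n := by
      intro s
      rw [← map_sum, ← hv s, key s]
      have h1 := hS (a (h v0) - a (g v0)) (a (h (v s)) - a (g (v s)))
      have h2 := hS (a (h v0)) (a (g v0))
      have h3 := hS (a (h (v s))) (a (g (v s)))
      have c1 : (S (a (h v0))).card = n := hh v0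
      have c2 : (S (a (g v0))).card = n := hg v0
      have c3 : (S (a (h (v s)))).card = n := hh (v s)
      have c4 : (S (a (g (v s)))).card = n := hg (v s)
      have d1 := (Finset.card_le_card h1).trans (Finset.card_union_le _ _)
      have d2 := (Finset.card_le_card h2).trans (Finset.card_union_le _ _)
      have d3 := (Finset.card_le_card h3).trans (Finset.card_union_le _ _)
      omega
    have hm : m ≤ (Finset.univ.biUnion (fun l => S (σ (u l)))).card := by
      apply hcount m (fun l => σ (u l))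
      · intro l
        rw [← map_nsmul]
        show σ (p • (e (φ (l, y l)) - e (φ (l, x l)))) = 0
        rw [smul_sub, hpe, hpe, sub_self, map_zero]
      · intro c hc
        apply hDiff A p m J e' hind' x y hxy c
        apply hσinj
        rw [map_sum]
        simpa only [map_zsmul] using hc
    have hfin := hCube A I S hS m (4 * n) (fun l => σ (u l)) hm hN4
    omega

end Pool.Agent.H272R3.DP
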