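import Pool.Agent.H272R3.DP.T

set_option autoImplicit false

namespace Pool.Agent.H272R3.DP

theorem taskCube : TaskCube := by
  classical
  intro A I _ _ S hS m N u hm hN
  have key : ∀ i ∈ Finset.univ.biUnion (fun l => S (u l)),
      2 ^ m ≤ 2 * (Finset.univ.filter (fun s : Finset (Fin m) => i ∈ S (∑ l ∈ s, u l))).card := by
    intro i hi
    rw [Finset.mem_biUnion] at hi
    obtain ⟨l, -, hl⟩ := hi
    have hcov : ∀ s : Finset (Fin m), i ∈ S (∑ l ∈ s, u l) ∨ i ∈ S (∑ l ∈ symmDiff s {l}, u l) := by
      intro s
      by_cases h : l ∈ s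
      · have e : symmDiff s {l} = s.erase l := by
          ext x
          simp only [Finset.mem_symmDiff, Finset.mem_singleton, Finset.mem_erase]
          constructor
          · rintro (⟨h1, h2⟩ | ⟨h1, h2⟩)
            · exact ⟨h2, h1⟩
            · exact absurd (h1 ▸ h) h2
          · rintro ⟨h1, h2⟩
            exact Or.inl ⟨h2, h1⟩
        have h1 : (∑ l ∈ s, u l) - (∑ l ∈ s.erase l, u l) = u l := by
          rw [← Finset.add_sum_erase s u h]
          abel
        have h2 := hS (∑ l ∈ s, u l) (∑ l ∈ s.erase l, u l)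
        rw [h1] at h2
        rw [e]
        exact Finset.mem_union.1 (h2 hl)
      · have e : symmDiff s {l} = insert l s := by
          ext x
          simp only [Finset.mem_symmDiff, Finset.mem_singleton, Finset.mem_insert]
          constructor
          · rintro (⟨h1, h2⟩ | ⟨h1, h2⟩)
            · exact Or.inr h1
            · exact Or.inl h1
          · rintro (h1 | h1)
            · exact Or.inr ⟨h1, h1 ▸ h⟩
            · exact Or.inl ⟨h1, fun h2 => h (h2 ▸ h1)⟩
        have h1 : (∑ l ∈ insert l s, u l) - (∑ l ∈ s, u l) = u l := by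
          rw [Finset.sum_insert h]
          abel
        have h2 := hS (∑ l ∈ insert l s, u l) (∑ l ∈ s, u l)
        rw [h1] at h2
        rw [e]
        exact (Finset.mem_union.1 (h2 hl)).symm
    have h1 : (Finset.univ : Finset (Finset (Fin m))) ⊆
        (Finset.univ.filter (fun s : Finset (Fin m) => i ∈ S (∑ l ∈ s, u l))) ∪
        (Finset.univ.filter (fun s : Finset (Fin m) => i ∈ S (∑ l ∈ s, u l))).image
          (fun s => symmDiff s {l}) := by
      intro s _
      rcases hcov s with h | h
      · exact Finset.mem_union_left _ (Finset.mem_filter.2 ⟨Finset.mem_univ _, h⟩)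
      · refine Finset.mem_union_right _ (Finset.mem_image.2
          ⟨symmDiff s {l}, Finset.mem_filter.2 ⟨Finset.mem_univ _, h⟩, ?_⟩)
        exact symmDiff_symmDiff_cancel_right _ _
    have h2 := Finset.card_le_card h1
    have h3 := Finset.card_union_le
      (Finset.univ.filter (fun s : Finset (Fin m) => i ∈ S (∑ l ∈ s, u l)))
      ((Finset.univ.filter (fun s : Finset (Fin m) => i ∈ S (∑ l ∈ s, u l))).image
          (fun s => symmDiff s {l}))
    have h4 : ((Finset.univ.filter (fun s : Finset (Fin m) => i ∈ S (∑ l ∈ s, u l))).image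
          (fun s => symmDiff s {l})).card ≤
        (Finset.univ.filter (fun s : Finset (Fin m) => i ∈ S (∑ l ∈ s, u l))).card :=
      Finset.card_image_le
    rw [Finset.card_univ, Fintype.card_finset, Fintype.card_fin] at h2
    omega
  have sum1 : ∑ i ∈ Finset.univ.biUnion (fun l => S (u l)),
      (Finset.univ.filter (fun s : Finset (Fin m) => i ∈ S (∑ l ∈ s, u l))).card ≤ 2 ^ m * N := by
    have h1 : ∑ i ∈ Finset.univ.biUnion (fun l => S (u l)),
        (Finset.univ.filter (fun s : Finset (Fin m) => i ∈ S (∑ l ∈ s, u l))).card =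
        ∑ s : Finset (Fin m), ((Finset.univ.biUnion (fun l => S (u l))).filter
          (fun i => i ∈ S (∑ l ∈ s, u l))).card := by
      simp only [Finset.card_filter]
      exact Finset.sum_comm
    rw [h1]
    calc ∑ s : Finset (Fin m), ((Finset.univ.biUnion (fun l => S (u l))).filter
          (fun i => i ∈ S (∑ l ∈ s, u l))).card ≤ ∑ _s : Finset (Fin m), N :=
          Finset.sum_le_sum fun s _ =>
            (Finset.card_le_card (fun i hi => (Finset.mem_filter.1 hi).2)).trans (hN s)
      _ = 2 ^ m * N := by
          rw [Finset.sum_const, Finset.card_univ, Fintype.card_finset, Fintype.card_fin,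
            smul_eq_mul]
  have sum2 : (Finset.univ.biUnion (fun l => S (u l))).card * 2 ^ m ≤
      2 * ∑ i ∈ Finset.univ.biUnion (fun l => S (u l)),
        (Finset.univ.filter (fun s : Finset (Fin m) => i ∈ S (∑ l ∈ s, u l))).card := by
    rw [Finset.mul_sum]
    have h := Finset.card_nsmul_le_sum (Finset.univ.biUnion (fun l => S (u l)))
      (fun i => 2 * (Finset.univ.filter
        (fun s : Finset (Fin m) => i ∈ S (∑ l ∈ s, u l))).card) (2 ^ m) key
    rwa [smul_eq_mul] at h
  have h5 : m * 2 ^ m ≤ (2 * N) * 2 ^ m := by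
    calc m * 2 ^ m ≤ (Finset.univ.biUnion (fun l => S (u l))).card * 2 ^ m :=
          Nat.mul_le_mul_right _ hm
      _ ≤ 2 * (2 ^ m * N) := sum2.trans (Nat.mul_le_mul_left 2 sum1)
      _ = (2 * N) * 2 ^ m := by ring
  exact Nat.le_of_mul_le_mul_right h5 (by positivity)

end Pool.Agent.H272R3.DP
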