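import Pool.Agent.H272R3.DP.T

set_option autoImplicit false

/-! # Task `Cube` of the project DP (MP_4f48ca_al) -/

namespace Pool.Agent.H272R3.DP

theorem cube_helper291 : TaskCube := by
  intro A I _ _ S hS m N u hm hN
  classical
  set U := Finset.univ.biUnion (fun l => S (u l)) with hU
  have key : ∀ i ∈ U, 2 ^ m ≤ 2 *
      ((Finset.univ : Finset (Finset (Fin m))).filter (fun s => i ∈ S (∑ l ∈ s, u l))).card := by
    intro i hi
    rw [hU, Finset.mem_biUnion] at hi
    obtain ⟨l, -, hl⟩ := hi
    have hpair : ∀ s : Finset (Fin m), i ∉ S (∑ l ∈ s, u l) →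
        i ∈ S (∑ l ∈ symmDiff s {l}, u l) := by
      intro s hs
      by_cases hls : l ∈ s
      · have h1 : symmDiff s {l} = s.erase l := by
          ext x
          by_cases hx : x = l
          · subst hx; simp [Finset.mem_symmDiff, hls]
          · simp [Finset.mem_symmDiff, hx]
        have h2 : u l = ∑ l ∈ s, u l - ∑ l ∈ s.erase l, u l := by
          rw [← Finset.add_sum_erase s u hls]
          abel
        rw [h1]
        rw [h2] at hl
        rcases Finset.mem_union.1 (hS _ _ hl) with h3 | h3
        · exact absurd h3 hs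
        · exact h3
      · have h1 : symmDiff s {l} = insert l s := by
          ext x
          by_cases hx : x = l
          · subst hx; simp [Finset.mem_symmDiff, hls]
          · simp [Finset.mem_symmDiff, hx]
        have h2 : u l = ∑ l ∈ insert l s, u l - ∑ l ∈ s, u l := by
          rw [Finset.sum_insert hls]
          abel
        rw [h1]
        rw [h2] at hl
        rcases Finset.mem_union.1 (hS _ _ hl) with h3 | h3
        · exact h3
        · exact absurd h3 hs
    have hle : ((Finset.univ : Finset (Finset (Fin m))).filter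
        (fun s => ¬ i ∈ S (∑ l ∈ s, u l))).card ≤
        ((Finset.univ : Finset (Finset (Fin m))).filter (fun s => i ∈ S (∑ l ∈ s, u l))).card := by
      refine Finset.card_le_card_of_injOn (fun s => symmDiff s {l}) ?_ ?_
      · intro s hs
        have hs' := (Finset.mem_filter.1 hs).2
        exact Finset.mem_coe.2 (Finset.mem_filter.2 ⟨Finset.mem_univ _, hpair s hs'⟩)
      · intro s _ t _ hst
        exact symmDiff_left_injective {l} hst
    have htot := Finset.card_filter_add_card_filter_not (s := (Finset.univ : Finset (Finset (Fin m))))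
      (fun s => i ∈ S (∑ l ∈ s, u l))
    rw [Finset.card_univ, Fintype.card_finset, Fintype.card_fin] at htot
    omega
  have h1 : ∑ i ∈ U, ((Finset.univ : Finset (Finset (Fin m))).filter
      (fun s => i ∈ S (∑ l ∈ s, u l))).card ≤ ∑ s : Finset (Fin m), (S (∑ l ∈ s, u l)).card := by
    simp only [Finset.card_filter]
    rw [Finset.sum_comm]
    refine Finset.sum_le_sum fun s _ => ?_
    rw [← Finset.card_filter]
    exact Finset.card_le_card (fun i hi => (Finset.mem_filter.1 hi).2)
  have h2 : ∑ s : Finset (Fin m), (S (∑ l ∈ s, u l)).card ≤ 2 ^ m * N := by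
    refine (Finset.sum_le_card_nsmul _ _ N (fun s _ => hN s)).trans (le_of_eq ?_)
    rw [Finset.card_univ, Fintype.card_finset, Fintype.card_fin, smul_eq_mul]
  have h3 : U.card * 2 ^ m ≤ 2 * ∑ i ∈ U, ((Finset.univ : Finset (Finset (Fin m))).filter
      (fun s => i ∈ S (∑ l ∈ s, u l))).card := by
    rw [Finset.mul_sum, ← smul_eq_mul]
    exact Finset.card_nsmul_le_sum _ _ _ key
  have h4 : U.card * 2 ^ m ≤ (2 * N) * 2 ^ m := by
    calc U.card * 2 ^ m ≤ 2 * (2 ^ m * N) := h3.trans (Nat.mul_le_mul_left _ (h1.trans h2))
      _ = (2 * N) * 2 ^ m := by ring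
  exact hm.trans (Nat.le_of_mul_le_mul_right h4 (by positivity))

end Pool.Agent.H272R3.DP
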