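import Pool.Agent.H272R3.DP.T

set_option autoImplicit false

namespace Pool.Agent.H272R3.DP

theorem diff_helper584 : TaskDiff := by
  intro A _ p m X e he x y hxy c hc l
  classical
  let f : (Fin m × X) →₀ ℤ :=
    ∑ l, c l • (Finsupp.single (l, y l) (1 : ℤ) - Finsupp.single (l, x l) (1 : ℤ))
  have h1 : (f.sum fun j c => c • e j) = 0 := by
    rw [← Finsupp.linearCombination_apply ℤ f]
    simp only [f, map_sum, map_smul, map_sub, Finsupp.linearCombination_single, one_smul]
    exact hc
  have h2 := he f h1 (l, y l)
  have h3 : f (l, y l) = c l := by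
    simp only [f, Finsupp.coe_finset_sum, Finset.sum_apply, Finsupp.smul_apply, Finsupp.sub_apply,
      Finsupp.single_apply, Prod.mk.injEq, smul_eq_mul]
    rw [Finset.sum_eq_single l]
    · simp [hxy l]
    · intro b _ hb
      simp [hb]
    · intro h
      exact absurd (Finset.mem_univ l) h
  rwa [h3] at h2

end Pool.Agent.H272R3.DP
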