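import Pool.Agent.H272R3.DP.T

set_option autoImplicit false

namespace Pool.Agent.H272R3.DP

theorem ext_helper584 : TaskExt := by
  intro A D I _ _ hD E g
  classical
  have hsurj : ∀ {n : ℤ}, n ≠ 0 → Function.Surjective (fun a : I →₀ D => n • a) := by
    intro n hn x
    choose q hq using hD n hn
    let q' : D → D := fun d => if d = 0 then 0 else q d
    have hq' : ∀ d, n • q' d = d := by
      intro d
      by_cases h : d = 0
      · simp [q', h]
      · simp only [q', h, if_false]
        exact hq d
    refine ⟨x.mapRange q' (by simp [q']), ?_⟩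
    ext i
    simp only [Finsupp.smul_apply, Finsupp.mapRange_apply]
    exact hq' _
  have hdiv : DivisibleBy (I →₀ D) ℤ :=
    divisibleByOfSMulRightSurj _ _ hsurj
  obtain ⟨ψ, hψ⟩ := (Module.Baer.of_divisible (I →₀ D)).extension_property_addMonoidHom
    E.subtype Subtype.val_injective g
  exact ⟨ψ, fun x => DFunLike.congr_fun hψ x⟩

end Pool.Agent.H272R3.DP
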