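import Mathlib

set_option autoImplicit false

open Cardinal

namespace Pool.Agent.H272R3.DP

/-- Box lemma. -/
def TaskBox : Prop := ∀ (X : Type) (κ : Cardinal.{0}), #X = κ → ℵ₀ ≤ κ → (∀ c < κ, Order.succ c < κ) →
  ∀ (m : ℕ) (C : Type), #C < κ → ∀ col : (Fin m → X) → C,
    ∃ x y : Fin m → X, (∀ l, x l ≠ y l) ∧
      ∀ s : Finset (Fin m), col (fun l => if l ∈ s then y l else x l) = col x

/-- Cube counting. -/
def TaskCube : Prop := ∀ (A I : Type) [AddCommGroup A] [DecidableEq I] (S : A → Finset I),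
  (∀ a b, S (a - b) ⊆ S a ∪ S b) → ∀ (m N : ℕ) (u : Fin m → A),
    m ≤ (Finset.univ.biUnion (fun l => S (u l))).card →
    (∀ s : Finset (Fin m), (S (∑ l ∈ s, u l)).card ≤ N) → m ≤ 2 * N

/-- Extension of homomorphisms into direct sums of a divisible group. -/
def TaskExt : Prop := ∀ (A D I : Type) [AddCommGroup A] [AddCommGroup D],
  (∀ n : ℤ, n ≠ 0 → ∀ d : D, ∃ d' : D, n • d' = d) → ∀ (E : AddSubgroup A) (g : E →+ (I →₀ D)),
    ∃ ψ : A →+ (I →₀ D), ∀ x : E, ψ x = g x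

/-- the package -/
def Pack (A : Type) [AddCommGroup A] (κ : Cardinal.{0}) : Prop :=
  ∃ (p : ℕ) (I : Type) (_ : DecidableEq I) (S : A → Finset I) (J : Type) (e : J → A), #J = κ ∧
    (∀ a b, S (a - b) ⊆ S a ∪ S b) ∧ (∀ j, p • e j = 0) ∧
    (∀ f : J →₀ ℤ, (f.sum fun j c => c • e j) = 0 → ∀ j, (p : ℤ) ∣ f j) ∧
    (∀ (m : ℕ) (u : Fin m → A), (∀ l, p • u l = 0) →
      (∀ c : Fin m → ℤ, ∑ l, c l • u l = 0 → ∀ l, (p : ℤ) ∣ c l) →
      m ≤ (Finset.univ.biUnion (fun l => S (u l))).card)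

/-- prime case -/
def TaskPrime : Prop := TaskExt → ∀ (A : Type) [AddCommGroup A] (κ : Cardinal.{0}) (p : ℕ), p.Prime →
  ℵ₀ < κ → #{a : A // p • a = 0} = κ → Pack A κ

/-- torsion free rank case -/
def TaskZero : Prop := TaskExt → ∀ (A : Type) [AddCommGroup A] (κ : Cardinal.{0}), ℵ₀ < κ → #A = κ →
  #{a : A // ∃ n : ℕ, 0 < n ∧ n • a = 0} < κ → Pack A κ

/-- splitting of the cases -/
def TaskSplit : Prop := ∀ (A : Type) [AddCommGroup A] (κ : Cardinal.{0}), ℵ₀ < κ → #A = κ →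
  (∀ B : ℕ → Set A, (∀ n, #(B n) < κ) → #(⋃ n, B n : Set A) < κ) →
  #{a : A // ∃ n : ℕ, 0 < n ∧ n • a = 0} < κ ∨ ∃ p : ℕ, p.Prime ∧ #{a : A // p • a = 0} = κ

/-- differences of an independent family -/
def TaskDiff : Prop := ∀ (A : Type) [AddCommGroup A] (p m : ℕ) (X : Type) (e : Fin m × X → A),
  (∀ f : (Fin m × X) →₀ ℤ, (f.sum fun j c => c • e j) = 0 → ∀ j, (p : ℤ) ∣ f j) →
  ∀ x y : Fin m → X, (∀ l, x l ≠ y l) →
    ∀ c : Fin m → ℤ, ∑ l, c l • (e (l, y l) - e (l, x l)) = 0 → ∀ l, (p : ℤ) ∣ c l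

/-- the conclusion of the problem -/
def Good (G : Type) [Group G] : Prop := ∃ A : ℕ → Set G,
  (⋃ n, A n) = Set.univ ∧ Pairwise (fun i j => Disjoint (A i) (A j)) ∧
  ∀ n : ℕ, ¬ ∃ F : Set G, Cardinal.mk F < Cardinal.mk G ∧
    (∀ g : G, ∃ f ∈ F, ∃ a ∈ A n, ∃ b ∈ A n, f * (a * b⁻¹) = g)

/-- soluble groups reduce to abelian normal subgroups of small index -/
def TaskSol : Prop := ∀ κ : Cardinal.{0}, ℵ₀ < κ →
  (∀ (G : Type) [Group G], #G = κ → ∀ N : Subgroup G, N.Normal →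
    (∀ a ∈ N, ∀ b ∈ N, a * b = b * a) → #(G ⧸ N) < κ → Good G) →
  ∀ (G : Type) [Group G], #G = κ → ∀ N : Subgroup G, [N.Normal] → IsSolvable (G ⧸ N) → #(G ⧸ N) = κ → Good G

end Pool.Agent.H272R3.DP
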