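import Mathlib
import Pool.Agent.H272R3.DP.T

set_option autoImplicit false

namespace Pool.Agent.H272R3.DP

theorem taskExt : TaskExt := by
  classical
  intro A D I _ _ hdiv E g
  choose q hq using hdiv
  have hdiv2 : ∀ n : ℤ, n ≠ 0 → ∀ f : I →₀ D, ∃ f' : I →₀ D, n • f' = f := by
    intro n hn f
    refine ⟨f.mapRange (fun d => if d = 0 then 0 else q n hn d) (by simp), ?_⟩
    ext i
    rw [Finsupp.smul_apply, Finsupp.mapRange_apply]
    by_cases h : f i = 0
    · rw [if_pos h, smul_zero, h]
    · rw [if_neg h, hq]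
  let inst : DivisibleBy (I →₀ D) ℤ :=
    { div := fun f n => if h : n = 0 then 0 else (hdiv2 n h f).choose
      div_zero := fun f => by simp
      div_cancel := fun {n} f hn => by
        rw [dif_neg hn]
        exact (hdiv2 n hn f).choose_spec }
  obtain ⟨ψ, hψ⟩ := (Module.Baer.of_divisible (I →₀ D)).extension_property_addMonoidHom
    E.subtype Subtype.val_injective g
  exact ⟨ψ, fun x => congrArg (fun F : E →+ (I →₀ D) => F x) hψ⟩

end Pool.Agent.H272R3.DP
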