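import Pool.Agent.H272R3.DP.Main

set_option autoImplicit false

open Cardinal Pointwise

namespace Pool.Agent.H272R3.DP

theorem good_iff {G : Type} [Group G] (h : Good G) :
    ∃ A : ℕ → Set G, (⋃ n, A n) = Set.univ ∧ Pairwise (fun i j => Disjoint (A i) (A j)) ∧
      ∀ n : ℕ, ¬ ∃ F : Set G, #F < #G ∧ F * (A n * (A n)⁻¹) = Set.univ := by
  obtain ⟨A, h1, h2, h3⟩ := h
  refine ⟨A, h1, h2, ?_⟩
  rintro n ⟨F, hF, hcov⟩
  apply h3 n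
  refine ⟨F, hF, fun g => ?_⟩
  have hg : g ∈ F * (A n * (A n)⁻¹) := by rw [hcov]; exact Set.mem_univ g
  obtain ⟨f, hf, c, hc, rfl⟩ := Set.mem_mul.1 hg
  obtain ⟨a, ha, b, hb, rfl⟩ := Set.mem_mul.1 hc
  exact ⟨f, hf, a, ha, b⁻¹, Set.mem_inv.1 hb, by rw [inv_inv]⟩

end Pool.Agent.H272R3.DP
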