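import Pool.Agent.H272R3.DP.Core

set_option autoImplicit false

open Cardinal

namespace Pool.Agent.H272R3.DP

/-- a group which is a countable union of smaller sets -/
theorem good_union {G : Type} [Group G] (hinf : ℵ₀ ≤ #G) (B : ℕ → Set G) (hB : (⋃ n, B n) = Set.univ)
    (hc : ∀ n, #(B n) < #G) : Good G := by
  classical
  set D : ℕ → Set G := disjointed B with hD
  refine ⟨D, ?_, ?_, ?_⟩
  · rw [hD, iUnion_disjointed, hB]
  · exact disjoint_disjointed B
  · rintro n ⟨F, hF, hcov⟩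
    have hA : #(D n) < #G := (mk_le_mk_of_subset (disjointed_subset B n)).trans_lt (hc n)
    have hsurj : Function.Surjective (fun z : F × (D n) × (D n) =>
        (z.1 : G) * ((z.2.1 : G) * (z.2.2 : G)⁻¹)) := by
      intro g
      obtain ⟨f, hf, a, ha, b, hb, h⟩ := hcov g
      exact ⟨(⟨f, hf⟩, ⟨a, ha⟩, ⟨b, hb⟩), h⟩
    have h1 := mk_le_of_surjective hsurj
    have h2 : #(F × (D n) × (D n)) < #G := by
      rw [mk_prod]
      simp only [lift_id]
      refine mul_lt_of_lt hinf hF ?_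
      simp only [mk_prod, lift_id]
      exact mul_lt_of_lt hinf hA hA
    exact absurd h1 (not_le.2 h2)

/-- pull-back of partitions -/
theorem good_pull {G : Type} [Group G] (N : Subgroup G) [N.Normal] (h : #(G ⧸ N) = #G)
    (hg : Good (G ⧸ N)) : Good G := by
  obtain ⟨A, hA1, hA2, hA3⟩ := hg
  refine ⟨fun n => (QuotientGroup.mk : G → G ⧸ N) ⁻¹' (A n), ?_, ?_, ?_⟩
  · rw [← Set.preimage_iUnion, hA1, Set.preimage_univ]
  · intro i j hij
    exact (hA2 hij).preimage _
  · rintro n ⟨F, hF, hcov⟩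
    apply hA3 n
    refine ⟨(QuotientGroup.mk : G → G ⧸ N) '' F, ?_, ?_⟩
    · rw [h]; exact mk_image_le.trans_lt hF
    · intro q
      obtain ⟨g, rfl⟩ := QuotientGroup.mk_surjective q
      obtain ⟨f, hf, a, ha, b, hb, h⟩ := hcov g
      exact ⟨_, ⟨f, hf, rfl⟩, _, ha, _, hb, by rw [← h]; rfl⟩

/-- abelian normal subgroups of small index -/
theorem good_abelian (hBox : TaskBox) (hCube : TaskCube) (hDiff : TaskDiff) (hExt : TaskExt)
    (hPrime : TaskPrime) (hZero : TaskZero) (hSplit : TaskSplit) (κ : Cardinal.{0}) (hκ : ℵ₀ < κ)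
    (hlim : ∀ c < κ, Order.succ c < κ)
    (hU : ∀ A : Type, #A = κ → ∀ B : ℕ → Set A, (∀ n, #(B n) < κ) → #(⋃ n, B n : Set A) < κ)
    (G : Type) [Group G] (hG : #G = κ) (N : Subgroup G) (hNn : N.Normal)
    (hcomm : ∀ a ∈ N, ∀ b ∈ N, a * b = b * a) (hq : #(G ⧸ N) < κ) : Good G := by
  classical
  letI : CommGroup N := { (inferInstance : Group N) with
    mul_comm := fun a b => Subtype.ext (hcomm a a.2 b b.2) }
  have hA : #(Additive N) = κ := by
    have h1 : #(Additive N) = #N := rfl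
    rw [h1]
    have h2 : #G = #(G ⧸ N) * #N := by
      rw [mk_congr (Subgroup.groupEquivQuotientProdSubgroup (s := N))]
      simp only [mk_prod, lift_id]
    have h3 : #N ≤ κ := hG ▸ mk_set_le (N : Set G)
    refine le_antisymm h3 ?_
    by_contra hlt
    rw [not_le] at hlt
    have := mul_lt_of_lt hκ.le hq hlt
    rw [← h2, hG] at this
    exact lt_irrefl _ this
  have hP : Pack (Additive N) κ := by
    rcases hSplit (Additive N) κ hκ hA (hU _ hA) with h | ⟨p, hp, h⟩
    · exact hZero hExt (Additive N) κ hκ hA h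
    · exact hPrime hExt (Additive N) κ p hp hκ h
  refine core hBox hCube hDiff κ hκ hlim N (fun a => ((Additive.toMul a : N) : G)) ?_ ?_ ?_ hNn hG hq hP
  · intro a b h
    exact Additive.toMul.injective (Subtype.ext h)
  · intro a b
    show ((Additive.toMul (a - b) : N) : G) = _
    rw [toMul_sub, div_eq_mul_inv]
    rfl
  · intro g
    constructor
    · intro hg
      exact ⟨Additive.ofMul ⟨g, hg⟩, rfl⟩
    · rintro ⟨a, rfl⟩
      exact (Additive.toMul a).2

theorem main (hBox : TaskBox) (hCube : TaskCube) (hDiff : TaskDiff) (hExt : TaskExt)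
    (hPrime : TaskPrime) (hZero : TaskZero) (hSplit : TaskSplit) (hSol : TaskSol)
    (G : Type) [Group G] [Infinite G] (hlim : ∀ c < #G, Order.succ c < #G)
    (h : (∃ B : ℕ → Set G, (⋃ n, B n) = Set.univ ∧ ∀ n, #(B n) < #G) ∨
      (∃ N : Subgroup G, ∃ _ : N.Normal, Group.IsSolvable (G ⧸ N) ∧ #(G ⧸ N) = #G) ∨
      (∃ N M : Subgroup G, N.Normal ∧ M.Normal ∧ N ≤ M ∧ (∀ a ∈ M, ∀ b ∈ M, a * b * a⁻¹ * b⁻¹ ∈ N) ∧
        #(G ⧸ N) = #G ∧ #(G ⧸ M) < #G)) : Good G := by
  classical
  have hinf : ℵ₀ ≤ #G := aleph0_le_mk G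
  by_cases hB : ∃ B : ℕ → Set G, (⋃ n, B n) = Set.univ ∧ ∀ n, #(B n) < #G
  · obtain ⟨B, hB1, hB2⟩ := hB
    exact good_union hinf B hB1 hB2
  have hU : ∀ A : Type, #A = #G → ∀ B : ℕ → Set A, (∀ n, #(B n) < #G) →
      #(⋃ n, B n : Set A) < #G := by
    intro A hA B hB'
    by_contra hge
    rw [not_lt] at hge
    have heq : #(⋃ n, B n : Set A) = #G := le_antisymm (hA ▸ mk_set_le _) hge
    obtain ⟨ε⟩ := Cardinal.eq.1 heq
    apply hB
    refine ⟨fun n => {g | ((ε.symm g : (⋃ n, B n : Set A)) : A) ∈ B n}, ?_, ?_⟩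
    · ext g
      simp only [Set.mem_iUnion, Set.mem_setOf_eq, Set.mem_univ, iff_true]
      exact Set.mem_iUnion.1 (ε.symm g).2
    · intro n
      refine lt_of_le_of_lt ?_ (hB' n)
      refine mk_le_of_injective (f := fun z => (⟨((ε.symm z.1 : (⋃ n, B n : Set A)) : A), z.2⟩ : B n)) ?_
      intro z w hzw
      have h1 := congrArg (fun q : B n => (q : A)) hzw
      exact Subtype.ext (ε.symm.injective (Subtype.ext h1))
  have hκ : ℵ₀ < #G := by
    rcases hinf.lt_or_eq with h1 | h1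
    · exact h1
    · exfalso
      apply hB
      haveI : Countable G := mk_le_aleph0_iff.1 h1.symm.le
      haveI : Nonempty G := ⟨1⟩
      obtain ⟨f, hf⟩ := exists_surjective_nat G
      refine ⟨fun n => {f n}, ?_, ?_⟩
      · ext g
        simp only [Set.mem_iUnion, Set.mem_singleton_iff, Set.mem_univ, iff_true]
        obtain ⟨n, hn⟩ := hf g
        exact ⟨n, hn.symm⟩
      · intro n
        rw [mk_singleton, ← h1]
        exact one_lt_aleph0
  have hab := good_abelian hBox hCube hDiff hExt hPrime hZero hSplit (#G) hκ hlim hU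
  rcases h with h | ⟨N, hN, hs, hc⟩ | ⟨N, M, hN, hM, hNM, hc, h1, h2⟩
  · exact absurd h hB
  · exact hSol (#G) hκ (fun G' _ hG' N' hN' hcomm hq => hab G' hG' N' hN' hcomm hq) G rfl N hs hc
  · haveI := hN
    haveI := hM
    apply good_pull N h1
    refine hab (G ⧸ N) h1 (M.map (QuotientGroup.mk' N)) (hM.map _ (QuotientGroup.mk'_surjective N)) ?_ ?_
    · rintro _ ⟨a, ha, rfl⟩ _ ⟨b, hb, rfl⟩
      have h3 : QuotientGroup.mk' N (a * b * a⁻¹ * b⁻¹) = 1 := (QuotientGroup.eq_one_iff _).2 (hc a ha b hb)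
      rw [map_mul, map_mul, map_mul, map_inv, map_inv, mul_inv_eq_one, mul_inv_eq_iff_eq_mul] at h3
      exact h3
    · haveI : (M.map (QuotientGroup.mk' N)).Normal := hM.map _ (QuotientGroup.mk'_surjective N)
      rw [mk_congr (QuotientGroup.quotientQuotientEquivQuotient N M hNM).toEquiv]
      exact h2

end Pool.Agent.H272R3.DP
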