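import Pool.Agent.H272R3.DP.T

set_option autoImplicit false

open Cardinal

namespace Pool.Agent.H272R3.DP

lemma divisible_circle : ∀ n : ℤ, n ≠ 0 → ∀ d : UnitAddCircle, ∃ d' : UnitAddCircle, n • d' = d := by
  intro n hn d
  obtain ⟨r, rfl⟩ := QuotientAddGroup.mk_surjective d
  refine ⟨((r / n : ℝ) : UnitAddCircle), ?_⟩
  have hn' : (n : ℝ) ≠ 0 := by exact_mod_cast hn
  show n • ((r / n : ℝ) : UnitAddCircle) = ((r : ℝ) : UnitAddCircle)
  rw [← AddCircle.coe_zsmul]
  congr 1
  rw [zsmul_eq_mul]
  field_simp

lemma prime_aux (hExt : TaskExt) (A : Type) [AddCommGroup A] (κ : Cardinal.{0}) (p : ℕ)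
    [Fact p.Prime] (hκ : ℵ₀ < κ) (E : AddSubgroup A) (hmem : ∀ a, a ∈ E ↔ p • a = 0)
    [Module (ZMod p) E] (hEκ : #E = κ) : Pack A κ := by
  classical
  have hp : p.Prime := Fact.out
  have : NeZero p := ⟨hp.ne_zero⟩
  obtain ⟨J, ⟨b⟩⟩ : ∃ J : Type, Nonempty (Module.Basis J (ZMod p) E) :=
    ⟨_, ⟨Module.Basis.ofVectorSpace (ZMod p) E⟩⟩
  have hrepr : #E = #(J →₀ ZMod p) := Cardinal.mk_congr b.repr.toEquiv
  have hJinf : Infinite J := by
    by_contra hcon
    rw [not_infinite_iff_finite] at hcon
    have h1 : #(J →₀ ZMod p) < ℵ₀ := Cardinal.lt_aleph0_iff_finite.mpr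
      (Finite.of_injective (fun f : J →₀ ZMod p => (f : J → ZMod p)) DFunLike.coe_injective)
    rw [← hrepr, hEκ] at h1
    exact absurd h1 (not_lt.mpr hκ.le)
  have hJκ : #J = κ := by
    have h1 : #(J →₀ ZMod p) = max #J #(ZMod p) := Cardinal.mk_finsupp_of_infinite J (ZMod p)
    have h2 : #(ZMod p) < ℵ₀ := Cardinal.lt_aleph0_iff_finite.mpr inferInstance
    have h3 : ℵ₀ ≤ #J := Cardinal.aleph0_le_mk J
    rw [← hEκ, hrepr, h1, max_eq_left (h2.le.trans h3)]
  let τ : ZMod p →+ UnitAddCircle := ZMod.toAddCircle
  have hτ : Function.Injective τ := ZMod.toAddCircle_injective p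
  let g : E →+ (J →₀ UnitAddCircle) :=
    (Finsupp.mapRange.addMonoidHom τ).comp b.repr.toLinearMap.toAddMonoidHom
  obtain ⟨ψ, hψ⟩ := hExt A UnitAddCircle J divisible_circle E g
  have hsupp : ∀ x : E, (ψ (x : A)).support = (b.repr x).support := by
    intro x
    rw [hψ x]
    exact Finsupp.support_mapRange_of_injective (map_zero τ) _ hτ
  refine ⟨p, J, inferInstance, fun a => (ψ a).support, J, fun j => (b j : A), hJκ, ?_, ?_, ?_, ?_⟩
  · intro a a'
    show (ψ (a - a')).support ⊆ _
    rw [map_sub]
    exact Finsupp.support_sub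
  · intro j
    exact (hmem _).mp (b j).2
  · intro f hf j
    have h1 : (f.sum fun j c => c • (b j : E)) = 0 := by
      apply Subtype.ext
      show ((f.sum fun j c => c • (b j : E) : E) : A) = 0
      rw [← hf, Finsupp.sum, Finsupp.sum, AddSubgroup.val_finsetSum]
      rfl
    have h2 : Finsupp.linearCombination (ZMod p) b (f.mapRange (Int.cast : ℤ → ZMod p) Int.cast_zero) = 0 := by
      rw [Finsupp.linearCombination_apply,
        Finsupp.sum_mapRange_index (h := fun i (a : ZMod p) => a • b i) (fun i => zero_smul _ _), ← h1]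
      refine Finsupp.sum_congr (fun i _ => ?_)
      exact Int.cast_smul_eq_zsmul (ZMod p) (f i) (b i)
    have h3 := (linearIndependent_iff.mp b.linearIndependent) _ h2
    have h4 := DFunLike.congr_fun h3 j
    rw [Finsupp.mapRange_apply, Finsupp.zero_apply] at h4
    exact (ZMod.intCast_zmod_eq_zero_iff_dvd _ _).mp h4
  · intro m u hu hind
    let x : Fin m → E := fun l => ⟨u l, (hmem _).mpr (hu l)⟩
    have hli : LinearIndependent (ZMod p) x := by
      rw [Fintype.linearIndependent_iff]
      intro c hc l
      have h1 : ∑ l, ((c l).val : ℤ) • u l = 0 := by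
        have h2 : ((∑ l, c l • x l : E) : A) = 0 := by rw [hc]; rfl
        rw [AddSubgroup.val_finsetSum] at h2
        have h3 : ∀ l, ((c l • x l : E) : A) = ((c l).val : ℤ) • u l := by
          intro l
          have h4 : c l • x l = ((c l).val : ℤ) • x l := by
            rw [← Int.cast_smul_eq_zsmul (ZMod p)]
            congr 1
            push_cast
            rw [ZMod.natCast_val, ZMod.cast_id', id]
          rw [h4]
          rfl
        simp only [h3] at h2
        exact h2
      have h5 := hind _ h1 l
      have h6 : p ∣ (c l).val := by exact_mod_cast h5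
      have h7 := (ZMod.natCast_eq_zero_iff (c l).val p).mpr h6
      rw [ZMod.natCast_val, ZMod.cast_id', id] at h7
      exact h7
    set U : Finset J := Finset.univ.biUnion (fun l => (ψ (u l)).support) with hU
    have h8 := linearIndependent_le_span_aux' x hli ((U.image b : Finset E) : Set E) (by
      rintro _ ⟨l, rfl⟩
      have h9 := Module.Basis.mem_span_repr_support b (x l)
      refine Submodule.span_mono ?_ h9
      rw [Finset.coe_image]
      refine Set.image_mono ?_
      intro j hj
      rw [Finset.mem_coe, hU, Finset.mem_biUnion]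
      refine ⟨l, Finset.mem_univ l, ?_⟩
      have h10 := hsupp (x l)
      show j ∈ (ψ (u l)).support
      have h11 : (ψ (u l)).support = (b.repr (x l)).support := h10
      rw [h11]
      exact hj)
    rw [Fintype.card_fin] at h8
    simp only [Finset.coe_sort_coe, Fintype.card_coe] at h8
    exact h8.trans Finset.card_image_le

theorem prime_helper407 : TaskPrime := by
  intro hExt A _ κ p hp hκ hcard
  have : Fact p.Prime := ⟨hp⟩
  let E : AddSubgroup A :=
    { carrier := {a | p • a = 0}
      add_mem' := by
        intro a b ha hb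
        show p • (a + b) = 0
        rw [smul_add, show p • a = 0 from ha, show p • b = 0 from hb, add_zero]
      zero_mem' := smul_zero p
      neg_mem' := by
        intro a ha
        show p • (-a) = 0
        rw [smul_neg, show p • a = 0 from ha, neg_zero] }
  have hE : ∀ x : E, p • x = 0 := fun x => Subtype.ext x.2
  have hm : Module (ZMod p) E := AddCommGroup.zmodModule hE
  exact prime_aux hExt A κ p hκ E (fun a => Iff.rfl) hcard

end Pool.Agent.H272R3.DP
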