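import Pool.Agent.H272R3.DP.T

set_option autoImplicit false

open Cardinal

namespace Pool.Agent.H272R3.DP.Sol175

theorem good_pullback {G : Type} [Group G] {N : Subgroup G} [N.Normal] (hc : #(G ⧸ N) = #G)
    (h : Good (G ⧸ N)) : Good G := by
  obtain ⟨A, h1, h2, h3⟩ := h
  refine ⟨fun n => (QuotientGroup.mk : G → G ⧸ N) ⁻¹' A n, ?_, ?_, ?_⟩
  · rw [← Set.preimage_iUnion, h1, Set.preimage_univ]
  · intro i j hij
    exact Disjoint.preimage _ (h2 hij)
  · rintro n ⟨F, hF, hall⟩
    refine h3 n ⟨(QuotientGroup.mk : G → G ⧸ N) '' F, ?_, ?_⟩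
    · rw [hc]
      exact lt_of_le_of_lt Cardinal.mk_image_le hF
    · intro q
      obtain ⟨g, rfl⟩ := QuotientGroup.mk_surjective q
      obtain ⟨f, hf, a, ha, b, hb, hfab⟩ := hall g
      refine ⟨(f : G ⧸ N), ⟨f, hf, rfl⟩, (a : G ⧸ N), ha, (b : G ⧸ N), hb, ?_⟩
      rw [← hfab]
      rfl

theorem taskSol : TaskSol := by
  intro κ hκ hyp
  have key : ∀ (d : ℕ) (Q : Type) [Group Q], derivedSeries Q d = ⊥ → #Q = κ → Good Q := by
    intro d
    induction d with
    | zero =>
      intro Q _ hd hQ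
      exfalso
      rw [derivedSeries_zero] at hd
      have hs : Subsingleton Q := Subgroup.subsingleton_iff.1 (subsingleton_of_bot_eq_top hd.symm)
      have h1 : #Q ≤ 1 := Cardinal.le_one_iff_subsingleton.2 hs
      rw [hQ] at h1
      exact absurd (hκ.trans_le h1) (not_lt.2 (Cardinal.one_le_aleph0))
    | succ d ih =>
      intro Q _ hd hQ
      have hN : (derivedSeries Q d).Normal := derivedSeries_normal Q d
      have hab : ∀ a ∈ derivedSeries Q d, ∀ b ∈ derivedSeries Q d, a * b = b * a := by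
        intro a ha b hb
        rw [derivedSeries_succ, Subgroup.commutator_eq_bot_iff_le_centralizer] at hd
        exact ((Subgroup.mem_centralizer_iff.1 (hd ha)) b hb).symm
      rcases lt_or_ge #(Q ⧸ derivedSeries Q d) κ with hlt | hge
      · exact hyp Q hQ (derivedSeries Q d) hN hab hlt
      · have hle : #(Q ⧸ derivedSeries Q d) ≤ #Q := Cardinal.mk_quotient_le
        have heq : #(Q ⧸ derivedSeries Q d) = κ := le_antisymm (hle.trans hQ.le) hge
        refine good_pullback (heq.trans hQ.symm) (ih (Q ⧸ derivedSeries Q d) ?_ heq)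
        rw [← map_derivedSeries_eq (QuotientGroup.mk'_surjective (derivedSeries Q d)) d]
        exact QuotientGroup.map_mk'_self _
  intro G _ hG N _ hsol hN
  obtain ⟨d, hd⟩ := (isSolvable_def (G ⧸ N)).1 hsol
  exact good_pullback (hN.trans hG.symm) (key d (G ⧸ N) hd hN)

end Pool.Agent.H272R3.DP.Sol175

namespace Pool.Agent.H272R3.DP

theorem taskSol : TaskSol := Sol175.taskSol

end Pool.Agent.H272R3.DP
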