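import Pool.Agent.H272R3.DP.Main

set_option autoImplicit false

open Cardinal

namespace Pool.Agent.H272R3.DP

theorem solX : TaskSol := by
  intro κ hκ hab
  have key : ∀ (d : ℕ) (Q : Type) [Group Q], #Q = κ → derivedSeries Q d = ⊥ → Good Q := by
    intro d
    induction d with
    | zero =>
      intro Q _ hQ hd
      exfalso
      rw [derivedSeries_zero] at hd
      have hsub : Subsingleton Q := ⟨fun a b => by
        have ha : a ∈ (⊤ : Subgroup Q) := Subgroup.mem_top a
        have hb : b ∈ (⊤ : Subgroup Q) := Subgroup.mem_top b
        rw [hd, Subgroup.mem_bot] at ha hb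
        rw [ha, hb]⟩
      have h1 : #Q ≤ 1 := le_one_iff_subsingleton.2 hsub
      rw [hQ] at h1
      exact absurd (hκ.trans_le h1) (not_lt.2 one_lt_aleph0.le)
    | succ d ih =>
      intro Q _ hQ hd
      have hA : (derivedSeries Q d).Normal := inferInstance
      by_cases hc : #(Q ⧸ derivedSeries Q d) = κ
      · refine good_pull (derivedSeries Q d) (hc.trans hQ.symm) (ih _ hc ?_)
        rw [← map_derivedSeries_eq (QuotientGroup.mk'_surjective (derivedSeries Q d)) d]
        exact QuotientGroup.map_mk'_self _
      · refine hab Q hQ (derivedSeries Q d) hA ?_ ?_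
        · intro a ha b hb
          have h1 := Subgroup.commutator_mem_commutator ha hb
          rw [← derivedSeries_succ, hd, Subgroup.mem_bot] at h1
          exact commutatorElement_eq_one_iff_mul_comm.1 h1
        · exact lt_of_le_of_ne (hQ ▸ mk_le_of_surjective QuotientGroup.mk_surjective) hc
  intro G _ hG N hN hs hc
  obtain ⟨d, hd⟩ := hs
  exact good_pull N (hc.trans hG.symm) (key d _ hc hd)

end Pool.Agent.H272R3.DP
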