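import Pool.Agent.H272R3.DP.T

set_option autoImplicit false

open Cardinal

namespace Pool.Agent.H272R3.DP

theorem split : TaskSplit := by
  classical
  intro A _ κ hκ hA hU
  rcases lt_or_ge (#{a : A // ∃ n : ℕ, 0 < n ∧ n • a = 0}) κ with h | h
  · exact Or.inl h
  refine Or.inr ?_
  have hex : ∃ n : ℕ, 0 < n ∧ κ ≤ #{a : A // n • a = 0} := by
    by_contra hcon
    push Not at hcon
    have h1 := hU (fun n => {a : A | 0 < n ∧ n • a = 0}) (by
      intro n
      rcases Nat.eq_zero_or_pos n with hn | hn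
      · subst hn
        have : IsEmpty ({a : A | 0 < 0 ∧ 0 • a = 0} : Set A) :=
          ⟨fun a => absurd a.2.1 (lt_irrefl 0)⟩
        rw [Cardinal.mk_eq_zero]
        exact lt_trans Cardinal.aleph0_pos hκ
      · refine lt_of_le_of_lt ?_ (hcon n hn)
        exact Cardinal.mk_le_of_injective
          (f := fun a : ({a : A | 0 < n ∧ n • a = 0} : Set A) =>
            (⟨a.1, a.2.2⟩ : {a : A // n • a = 0}))
          (fun a b hab => Subtype.ext (Subtype.mk.inj hab)))
    refine absurd h1 (not_lt.2 (h.trans ?_))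
    exact Cardinal.mk_le_of_injective
      (f := fun a : {a : A // ∃ n : ℕ, 0 < n ∧ n • a = 0} =>
        (⟨a.1, Set.mem_iUnion.2 a.2⟩ : (⋃ n : ℕ, {a : A | 0 < n ∧ n • a = 0} : Set A)))
      (fun a b hab => Subtype.ext (Subtype.mk.inj hab))
  obtain ⟨hn0, hn⟩ := Nat.find_spec hex
  have hmin : ∀ k, k < Nat.find hex → 0 < k → #{a : A // k • a = 0} < κ := by
    intro k hk hk0
    have := Nat.find_min hex hk
    by_contra hc
    exact this ⟨hk0, not_lt.1 hc⟩
  set n := Nat.find hex with hnd
  have hn1 : n ≠ 1 := by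
    intro h1
    rw [h1] at hn
    have h2 : #{a : A // 1 • a = 0} ≤ 1 := by
      rw [Cardinal.le_one_iff_subsingleton]
      refine ⟨fun a b => Subtype.ext ?_⟩
      have ha := a.2
      have hb := b.2
      rw [one_nsmul] at ha hb
      rw [ha, hb]
    exact absurd (hn.trans h2) (not_le.2 (lt_trans Cardinal.one_lt_aleph0 hκ))
  have hp : n.minFac.Prime := Nat.minFac_prime hn1
  refine ⟨n.minFac, hp, le_antisymm ?_ ?_⟩
  · rw [← hA]
    exact Cardinal.mk_subtype_le _
  obtain ⟨k, hk⟩ := Nat.minFac_dvd n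
  set p := n.minFac with hpd
  have hk0 : 0 < k := by
    rcases Nat.eq_zero_or_pos k with h0 | h0
    · rw [h0, mul_zero] at hk
      omega
    · exact h0
  have hkn : k < n := by
    have := hp.two_le
    nlinarith
  have hkκ := hmin k hkn hk0
  by_contra hlt
  rw [not_le] at hlt
  have hprod : #{a : A // p • a = 0} * #{a : A // k • a = 0} < κ :=
    Cardinal.mul_lt_of_lt hκ.le hlt hkκ
  -- the map
  let g : {a : A // n • a = 0} → {a : A // p • a = 0} := fun a =>
    ⟨k • a.1, by rw [← mul_nsmul', ← hk]; exact a.2⟩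
  let s : {a : A // p • a = 0} → A := fun b =>
    if hb : ∃ a : {a : A // n • a = 0}, g a = b then hb.choose.1 else 0
  have hs : ∀ a : {a : A // n • a = 0}, k • s (g a) = k • a.1 := by
    intro a
    have hb : ∃ a' : {a : A // n • a = 0}, g a' = g a := ⟨a, rfl⟩
    have h1 : s (g a) = hb.choose.1 := dif_pos hb
    rw [h1]
    exact congrArg Subtype.val hb.choose_spec
  let f : {a : A // n • a = 0} → {a : A // p • a = 0} × {a : A // k • a = 0} := fun a =>
    (g a, ⟨a.1 - s (g a), by rw [nsmul_sub, hs, sub_self]⟩)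
  have hf : Function.Injective f := by
    intro a b hab
    have h1 : g a = g b := congrArg Prod.fst hab
    have h2 : a.1 - s (g a) = b.1 - s (g b) := congrArg Subtype.val (congrArg Prod.snd hab)
    rw [h1] at h2
    exact Subtype.ext (sub_left_injective h2)
  have h3 := Cardinal.mk_le_of_injective hf
  rw [Cardinal.mk_prod, Cardinal.lift_id, Cardinal.lift_id] at h3
  exact absurd (hn.trans h3) (not_le.2 hprod)

end Pool.Agent.H272R3.DP
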