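import Pool.Agent.H272R3.DP.T

set_option autoImplicit false

open Cardinal

namespace Pool.Agent.H272R3.DP

theorem splitX : TaskSplit := by
  classical
  intro A _ κ hκ hA hU
  by_cases h : #{a : A // ∃ n : ℕ, 0 < n ∧ n • a = 0} < κ
  · exact Or.inl h
  right
  have hex : ∃ n : ℕ, 0 < n ∧ κ ≤ #{a : A // n • a = 0} := by
    by_contra hno
    push Not at hno
    apply h
    have h1 := hU (fun n => {a : A | (n + 1) • a = 0}) (fun n => hno (n + 1) (Nat.succ_pos n))
    refine lt_of_le_of_lt ?_ h1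
    refine mk_le_mk_of_subset (s := {a : A | ∃ n : ℕ, 0 < n ∧ n • a = 0}) ?_
    rintro a ⟨n, hn, hna⟩
    refine Set.mem_iUnion.2 ⟨n - 1, ?_⟩
    show (n - 1 + 1) • a = 0
    rw [Nat.sub_add_cancel hn]; exact hna
  obtain ⟨hn0, hn1⟩ := Nat.find_spec hex
  have hmin : ∀ m < Nat.find hex, ¬ (0 < m ∧ κ ≤ #{a : A // m • a = 0}) := fun m hm => Nat.find_min hex hm
  set n := Nat.find hex with hn
  have hne1 : n ≠ 1 := by
    intro h1
    rw [h1] at hn1
    have h2 : #{a : A // 1 • a = 0} ≤ 1 := by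
      rw [le_one_iff_subsingleton]
      exact ⟨fun a b => Subtype.ext (by have ha := a.2; have hb := b.2; rw [one_smul] at ha hb; rw [ha, hb])⟩
    exact absurd (hκ.trans_le (hn1.trans h2)) (not_lt.2 one_lt_aleph0.le)
  have hp : n.minFac.Prime := Nat.minFac_prime hne1
  obtain ⟨k, hk⟩ := Nat.minFac_dvd n
  set p := n.minFac with hpdef
  refine ⟨p, hp, ?_⟩
  have hk0 : 0 < k := by
    rcases Nat.eq_zero_or_pos k with h0 | h0
    · rw [h0, mul_zero] at hk; omega
    · exact h0
  have hkn : k < n := by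
    rw [hk]; nlinarith [hp.two_le]
  have hAk : #{a : A // k • a = 0} < κ := by
    by_contra h1
    exact hmin k hkn ⟨hk0, not_lt.1 h1⟩
  have hle : #{a : A // p • a = 0} ≤ κ := hA ▸ mk_subtype_le _
  refine le_antisymm hle ?_
  by_contra hlt
  rw [not_le] at hlt
  have hsec : ∀ y : A, ∃ s : A, ∀ a : A, k • a = y → k • s = y := by
    intro y
    by_cases hy : ∃ a : A, k • a = y
    · obtain ⟨a, ha⟩ := hy
      exact ⟨a, fun _ _ => ha⟩
    · exact ⟨0, fun a ha => absurd ⟨a, ha⟩ hy⟩
  choose s hs using hsec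
  have hinj : #{a : A // n • a = 0} ≤ #({a : A // p • a = 0} × {a : A // k • a = 0}) := by
    refine mk_le_of_injective (f := fun a =>
      ((⟨k • (a : A), by rw [← mul_smul, ← hk]; exact a.2⟩ : {a : A // p • a = 0}),
       (⟨(a : A) - s (k • (a : A)), by rw [smul_sub, hs (k • (a : A)) a rfl, sub_self]⟩ :
        {a : A // k • a = 0}))) ?_
    intro a b hab
    have h1 : k • (a : A) = k • (b : A) := congrArg (fun z => ((z.1 : {a : A // p • a = 0}) : A)) hab
    have h2 : (a : A) - s (k • (a : A)) = (b : A) - s (k • (b : A)) :=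
      congrArg (fun z => ((z.2 : {a : A // k • a = 0}) : A)) hab
    rw [h1] at h2
    exact Subtype.ext (sub_left_inj.1 h2)
  have hprod : #({a : A // p • a = 0} × {a : A // k • a = 0}) < κ := by
    simp only [mk_prod, lift_id]
    exact mul_lt_of_lt hκ.le hlt hAk
  exact absurd (hn1.trans hinj) (not_le.2 hprod)

end Pool.Agent.H272R3.DP
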