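import Pool.Agent.H272R3.DP.T

/-! # TaskZero (helper929). -/

set_option autoImplicit false

open Cardinal

namespace Pool.Agent.H272R3.DP

namespace Zero929

theorem card_finsupp (J : Type) : #(J →₀ ℚ) ≤ max #J ℵ₀ := by
  cases isEmpty_or_nonempty J with
  | inl h =>
    refine le_trans ?_ (le_max_right _ _)
    exact Cardinal.mk_le_aleph0
  | inr h =>
    rw [Cardinal.mk_finsupp_of_infinite']
    simp

end Zero929

open Zero929 in
theorem taskZero : TaskZero := by
  intro hext A _ κ hκ hA htor
  classical
  obtain ⟨s, hs, hmax⟩ := exists_maximal_linearIndepOn ℤ (id : A → A)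
  let e : s → A := fun j => (j : A)
  have hli : LinearIndependent ℤ e := hs
  have hrange : (id : A → A) '' s = Set.range e := by
    ext x; simp [e]
  rw [hrange] at hmax
  let E : AddSubgroup A := (Submodule.span ℤ (Set.range e)).toAddSubgroup
  let g : E →+ (s →₀ ℚ) :=
    (Finsupp.mapRange.addMonoidHom (Int.castAddHom ℚ)).comp hli.repr.toAddMonoidHom
  have hdiv : ∀ n : ℤ, n ≠ 0 → ∀ d : ℚ, ∃ d' : ℚ, n • d' = d := by
    intro n hn d
    refine ⟨d / n, ?_⟩
    have : (n : ℚ) ≠ 0 := by exact_mod_cast hn
    rw [zsmul_eq_mul]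
    field_simp
  obtain ⟨ψ, hψ⟩ := hext A ℚ s hdiv E g
  -- the kernel is torsion
  have hker : ∀ a : A, ψ a = 0 → ∃ n : ℕ, 0 < n ∧ n • a = 0 := by
    intro a ha
    obtain ⟨n, hn0, hn⟩ : ∃ n : ℤ, n ≠ 0 ∧ n • a ∈ Submodule.span ℤ (Set.range e) := by
      by_cases h : a ∈ s
      · exact ⟨1, one_ne_zero, by
          rw [one_smul]; exact Submodule.subset_span ⟨⟨a, h⟩, rfl⟩⟩
      · exact hmax a h
    have h1 : ψ (n • a) = 0 := by rw [map_zsmul, ha, smul_zero]
    have h2 := hψ ⟨n • a, hn⟩
    have h3 : Finsupp.mapRange.addMonoidHom (Int.castAddHom ℚ) (hli.repr ⟨n • a, hn⟩) = 0 := by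
      rw [← h1]; exact h2.symm
    have h4 : hli.repr ⟨n • a, hn⟩ = 0 := by
      ext j
      have := DFunLike.congr_fun h3 j
      simpa using this
    have h6 : n • a = 0 := by
      have h5 := hli.linearCombination_repr ⟨n • a, hn⟩
      rw [h4, map_zero] at h5
      exact h5.symm
    refine ⟨n.natAbs, Int.natAbs_pos.2 hn0, ?_⟩
    rcases Int.natAbs_eq n with h | h
    · rw [← natCast_zsmul, ← h, h6]
    · rw [← natCast_zsmul]
      have h7 : ((n.natAbs : ℕ) : ℤ) = -n := by omega
      rw [h7, neg_smul, h6, neg_zero]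
  -- cardinality
  have hcard : #s = κ := by
    apply le_antisymm
    · rw [← hA]; exact Cardinal.mk_set_le s
    · by_contra hcon
      push Not at hcon
      have h1 : #A ≤ #(s →₀ ℚ) * #{a : A // ∃ n : ℕ, 0 < n ∧ n • a = 0} := by
        have e1 := (AddSubgroup.addGroupEquivQuotientProdAddSubgroup (s := ψ.ker)).cardinal_eq
        rw [e1, Cardinal.mk_prod, Cardinal.lift_id, Cardinal.lift_id]
        refine mul_le_mul' ?_ ?_
        · rw [(QuotientAddGroup.quotientKerEquivRange ψ).toEquiv.cardinal_eq]
          exact Cardinal.mk_set_le _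
        · exact Cardinal.mk_subtype_mono fun a ha => hker a ha
      have h2 : #(s →₀ ℚ) < κ := (card_finsupp s).trans_lt (max_lt hcon hκ)
      have h3 := Cardinal.mul_lt_of_lt hκ.le h2 htor
      exact absurd (h1.trans_lt h3) (by rw [hA]; exact lt_irrefl _)
  refine ⟨0, s, inferInstance, fun a => (ψ a).support, s, e, hcard, ?_, ?_, ?_, ?_⟩
  · intro a b
    show (ψ (a - b)).support ⊆ (ψ a).support ∪ (ψ b).support
    rw [map_sub]
    exact Finsupp.support_sub
  · intro j; simp
  · intro f hf j
    have h1 : Finsupp.linearCombination ℤ e f = 0 := by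
      rw [Finsupp.linearCombination_apply]; exact hf
    have h2 : f = 0 := (linearIndependent_iff.1 hli) f h1
    rw [h2]; simp
  · intro m u _ hu
    have hu' : ∀ c : Fin m → ℤ, ∑ l, c l • u l = 0 → ∀ l, c l = 0 := by
      intro c hc l
      have := hu c hc l
      simpa using this
    set U := Finset.univ.biUnion (fun l => (ψ (u l)).support) with hU
    -- integral independence of the images
    have h1 : LinearIndependent ℤ (fun l => ψ (u l)) := by
      rw [Fintype.linearIndependent_iff]
      intro c hc l
      have h2 : ψ (∑ l, c l • u l) = 0 := by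
        rw [map_sum]
        simpa [map_zsmul] using hc
      obtain ⟨n, hn, h3⟩ := hker _ h2
      have h4 : ∑ l, ((n : ℤ) * c l) • u l = 0 := by
        rw [← h3, Finset.smul_sum]
        refine Finset.sum_congr rfl fun l _ => ?_
        rw [mul_smul, natCast_zsmul]
      have h5 := hu' _ h4 l
      rcases mul_eq_zero.1 h5 with h | h
      · exfalso
        have : n = 0 := by exact_mod_cast h
        omega
      · exact h
    have h2 : LinearIndependent ℚ (fun l => ψ (u l)) := (LinearIndependent.iff_fractionRing ℤ ℚ).1 h1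
    -- restriction to U
    let ρ : (s →₀ ℚ) →ₗ[ℚ] (U → ℚ) :=
      { toFun := fun f j => f j
        map_add' := fun f f' => rfl
        map_smul' := fun c f => rfl }
    have h3 : LinearIndependent ℚ (fun l => ρ (ψ (u l))) := by
      rw [Fintype.linearIndependent_iff] at h2 ⊢
      intro c hc
      apply h2 c
      ext j
      rw [Finsupp.finsetSum_apply]
      simp only [Finsupp.coe_smul, Pi.smul_apply, smul_eq_mul, Finsupp.coe_zero, Pi.zero_apply]
      by_cases hj : j ∈ U
      · have := congrFun hc ⟨j, hj⟩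
        rw [Finset.sum_apply] at this
        exact this
      · refine Finset.sum_eq_zero fun l _ => ?_
        have : ψ (u l) j = 0 := by
          by_contra hne
          exact hj (Finset.mem_biUnion.2 ⟨l, Finset.mem_univ _, Finsupp.mem_support_iff.2 hne⟩)
        rw [this, mul_zero]
    have h4 := h3.fintype_card_le_finrank
    simpa using h4

end Pool.Agent.H272R3.DP
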